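import Mathlib
import Pool.Agent.helper30.LR.Gauss
import Pool.Agent.helper44.LRP.Prime

/-! MP_0ec205_nt (helper30's plan, second round), module M: bounds for the number of ordinates
from the Gaussian explicit formula. -/

noncomputable section

namespace Pool.Agent.helper37.LRM

open MeasureTheory Set Filter Topology ArithmeticFunction Pool.Agent.helper30.LR

theorem gint {H : ℝ} (hH : 0 < H) : Integrable fun t : ℝ => Real.exp (-(t ^ 2 / H ^ 2)) := by
  have := integrable_exp_neg_mul_sq (b := 1 / H ^ 2) (by positivity)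
  refine this.congr (Eventually.of_forall fun t => ?_)
  simp only
  congr 1
  ring

theorem gval {H : ℝ} (hH : 0 < H) :
    ∫ t : ℝ, Real.exp (-(t ^ 2 / H ^ 2)) = Real.sqrt Real.pi * H := by
  have := integral_gaussian (1 / H ^ 2)
  rw [div_div_eq_mul_div, div_one, Real.sqrt_mul Real.pi_pos.le, Real.sqrt_sq hH.le] at this
  rw [← this]
  congr 1
  ext t
  congr 1
  ring

theorem abs_le_exp (u : ℝ) : |u| ≤ Real.exp (u ^ 2 / 2) := by
  have h := Real.add_one_le_exp (u ^ 2 / 2)
  nlinarith [sq_nonneg (|u| - 1), sq_abs u]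

theorem gabs {H : ℝ} (hH : 0 < H) (t : ℝ) :
    Real.exp (-(t ^ 2 / H ^ 2)) * (|t| / H) ≤ Real.exp (-(t ^ 2 / (Real.sqrt 2 * H) ^ 2)) := by
  have h := abs_le_exp (t / H)
  rw [abs_div, abs_of_pos hH] at h
  have e : Real.exp (-(t ^ 2 / (Real.sqrt 2 * H) ^ 2)) =
      Real.exp (-(t ^ 2 / H ^ 2)) * Real.exp ((t / H) ^ 2 / 2) := by
    rw [← Real.exp_add]
    congr 1
    rw [mul_pow, Real.sq_sqrt (by norm_num)]
    field_simp
    ring
  rw [e]
  gcongr

theorem log_le {H : ℝ} (hH : 1 ≤ H) (t : ℝ) : Real.log (|t| + 1) ≤ Real.log H + |t| / H := by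
  have hH0 : 0 < H := by linarith
  have h1 : |t| + 1 ≤ H * (1 + |t| / H) := by
    rw [mul_add, mul_div_cancel₀ _ hH0.ne']
    linarith
  calc Real.log (|t| + 1) ≤ Real.log (H * (1 + |t| / H)) :=
        Real.log_le_log (by positivity) h1
    _ = Real.log H + Real.log (1 + |t| / H) := Real.log_mul hH0.ne' (by positivity)
    _ ≤ Real.log H + |t| / H := by
        have := Real.log_le_sub_one_of_pos (x := 1 + |t| / H) (by positivity)
        linarith

variable {gg : ℝ → ℝ} {C0 : ℝ}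

theorem int_bd (hgc : Continuous gg) (hg : ∀ t, |gg t - Real.log (|t| + 1)| ≤ C0)
    {H : ℝ} (hH : 1 ≤ H) :
    Integrable (fun t : ℝ => Real.exp (-(t ^ 2 / H ^ 2)) * gg t) ∧
    ∫ t, Real.exp (-(t ^ 2 / H ^ 2)) * gg t ≤
      (Real.log H + C0) * (Real.sqrt Real.pi * H) + Real.sqrt Real.pi * (Real.sqrt 2 * H) := by
  have hH0 : 0 < H := by linarith
  have hl : 0 ≤ Real.log H := Real.log_nonneg hH
  have h2 : 0 < Real.sqrt 2 * H := by positivity
  have hC0 : 0 ≤ C0 := le_trans (abs_nonneg _) (hg 0)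
  have hI : Integrable fun t : ℝ => (Real.log H + C0) * Real.exp (-(t ^ 2 / H ^ 2)) +
      Real.exp (-(t ^ 2 / (Real.sqrt 2 * H) ^ 2)) := ((gint hH0).const_mul _).add (gint h2)
  have hb : ∀ t : ℝ, |Real.exp (-(t ^ 2 / H ^ 2)) * gg t| ≤
      (Real.log H + C0) * Real.exp (-(t ^ 2 / H ^ 2)) +
      Real.exp (-(t ^ 2 / (Real.sqrt 2 * H) ^ 2)) := by
    intro t
    have h3 : |gg t| ≤ Real.log H + |t| / H + C0 := by
      have h4 := hg t
      have h5 := log_le hH t
      have h6 : 0 ≤ Real.log (|t| + 1) := Real.log_nonneg (by linarith [abs_nonneg t])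
      rw [abs_le] at h4 ⊢
      constructor <;> linarith
    rw [abs_mul, abs_of_pos (Real.exp_pos _)]
    have h7 := gabs hH0 t
    have h8 := mul_le_mul_of_nonneg_left h3 (Real.exp_pos (-(t ^ 2 / H ^ 2))).le
    nlinarith
  have hI2 : Integrable (fun t : ℝ => Real.exp (-(t ^ 2 / H ^ 2)) * gg t) := by
    refine hI.mono' ?_ (Eventually.of_forall fun t => ?_)
    · exact ((by fun_prop : Continuous fun t : ℝ => Real.exp (-(t ^ 2 / H ^ 2))).mul
        hgc).aestronglyMeasurable
    · rw [Real.norm_eq_abs]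
      exact hb t
  refine ⟨hI2, ?_⟩
  calc ∫ t, Real.exp (-(t ^ 2 / H ^ 2)) * gg t
      ≤ ∫ t, ((Real.log H + C0) * Real.exp (-(t ^ 2 / H ^ 2)) +
      Real.exp (-(t ^ 2 / (Real.sqrt 2 * H) ^ 2))) :=
        integral_mono hI2 hI fun t => le_trans (le_abs_self _) (hb t)
    _ = _ := by
        rw [integral_add ((gint hH0).const_mul _) (gint h2), integral_const_mul, gval hH0,
          gval h2]

theorem int_low (hgc : Continuous gg) (hg : ∀ t, |gg t - Real.log (|t| + 1)| ≤ C0)
    {H : ℝ} (hH : 2 ≤ H) :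
    H / 2 * (Real.exp (-1) * Real.log (H / 2)) - C0 * (Real.sqrt Real.pi * H) ≤
      ∫ t, Real.exp (-(t ^ 2 / H ^ 2)) * gg t := by
  have hH0 : 0 < H := by linarith
  have hl : 0 ≤ Real.log (H / 2) := Real.log_nonneg (by linarith)
  have hC0 : 0 ≤ C0 := le_trans (abs_nonneg _) (hg 0)
  have hI := (int_bd hgc hg (by linarith : (1 : ℝ) ≤ H)).1
  set f : ℝ → ℝ := (Icc (H / 2) H).indicator fun _ => Real.exp (-1) * Real.log (H / 2) with hf
  have hfi : Integrable f := by
    rw [hf, integrable_indicator_iff measurableSet_Icc]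
    exact integrableOn_const (by simp)
  have hfv : ∫ t, f t = H / 2 * (Real.exp (-1) * Real.log (H / 2)) := by
    rw [hf, integral_indicator measurableSet_Icc, setIntegral_const]
    simp only [Measure.real, Real.volume_Icc, smul_eq_mul]
    rw [ENNReal.toReal_ofReal (by linarith)]
    ring
  have hJ : Integrable fun t : ℝ => C0 * Real.exp (-(t ^ 2 / H ^ 2)) := (gint hH0).const_mul _
  calc H / 2 * (Real.exp (-1) * Real.log (H / 2)) - C0 * (Real.sqrt Real.pi * H)
      = ∫ t, (f t - C0 * Real.exp (-(t ^ 2 / H ^ 2))) := by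
        rw [integral_sub hfi hJ, hfv, integral_const_mul, gval hH0]
    _ ≤ _ := by
        refine integral_mono (hfi.sub hJ) hI fun t => ?_
        have h4 := hg t
        have h6 : 0 ≤ Real.log (|t| + 1) := Real.log_nonneg (by linarith [abs_nonneg t])
        have h7 : f t ≤ Real.exp (-(t ^ 2 / H ^ 2)) * Real.log (|t| + 1) := by
          rw [hf]
          by_cases ht : t ∈ Icc (H / 2) H
          · rw [indicator_of_mem ht]
            have h8 : |t| = t := abs_of_nonneg (by linarith [ht.1])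
            have h9 : Real.log (H / 2) ≤ Real.log (|t| + 1) := by
              apply Real.log_le_log (by positivity)
              rw [h8]
              linarith [ht.1]
            have h10 : Real.exp (-1) ≤ Real.exp (-(t ^ 2 / H ^ 2)) := by
              apply Real.exp_le_exp.mpr
              rw [neg_le_neg_iff, div_le_one (by positivity)]
              have := ht.1
              have := ht.2
              nlinarith
            gcongr
          · rw [indicator_of_notMem ht]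
            positivity
        rw [abs_le] at h4
        have h11 := mul_le_mul_of_nonneg_left (by linarith [h4.1] : Real.log (|t| + 1) - C0 ≤ gg t)
          (Real.exp_pos (-(t ^ 2 / H ^ 2))).le
        nlinarith

/-- the prime part -/
theorem prime_part : ∃ C : ℝ, 0 < C ∧ ∀ H : ℝ, 4 ≤ H →
    0 ≤ ∑' n : ℕ, (vonMangoldt n : ℝ) / Real.sqrt n * (2 * kk H 0 (Real.log n)) ∧
    ∑' n : ℕ, (vonMangoldt n : ℝ) / Real.sqrt n * (2 * kk H 0 (Real.log n)) ≤ C * H := by
  obtain ⟨C, hC, h⟩ := Pool.Agent.helper44.LRP.prime_bound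
  refine ⟨C, hC, fun H hH => ⟨?_, ?_⟩⟩
  · refine tsum_nonneg fun n => ?_
    have : 0 ≤ vonMangoldt n := vonMangoldt_nonneg
    unfold kk
    positivity
  · have e : (fun n : ℕ => (vonMangoldt n : ℝ) / Real.sqrt n * (2 * kk H 0 (Real.log n))) =
        fun n : ℕ => (H / (2 * Real.sqrt Real.pi)) * ((vonMangoldt n : ℝ) / Real.sqrt n *
      (Real.exp (-(H ^ 2 * (Real.log n - 0) ^ 2 / 4)) +
        Real.exp (-(H ^ 2 * (Real.log n + 0) ^ 2 / 4)))) := by
      ext n
      unfold kk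
      field_simp
      ring
    rw [e, tsum_mul_left]
    have h1 := (h H hH 0).2
    simp only [abs_zero, neg_zero, zero_div, Real.exp_zero, add_zero, mul_one] at h1
    have h2 : (1 : ℝ) ≤ Real.sqrt Real.pi := by
      rw [Real.one_le_sqrt]
      linarith [Real.pi_gt_three]
    have h3 : 1 + 1 / H ≤ 2 := by
      have : 1 / H ≤ 1 := by
        rw [div_le_one (by linarith)]
        linarith
      linarith
    have h4 : (0 : ℝ) ≤ H / (2 * Real.sqrt Real.pi) := by positivity
    calc _ ≤ H / (2 * Real.sqrt Real.pi) * (C * 2) := by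
            refine mul_le_mul_of_nonneg_left ?_ h4
            simp only [sub_zero, add_zero] at h1 ⊢
            exact h1.trans (by gcongr)
      _ ≤ H / (2 * 1) * (C * 2) := by gcongr
      _ = C * H := by ring

theorem mass_bounds (gg : ℝ → ℝ) (hgc : Continuous gg) {C0 : ℝ}
    (hg : ∀ t, |gg t - Real.log (|t| + 1)| ≤ C0) (m : ℝ → ℕ) (hm : ∀ γ, m (-γ) = m γ)
    (hE : ∀ H : ℝ, 0 < H → HasSum (fun γ : ℝ => (m γ : ℝ) * Real.exp (-(γ ^ 2 / H ^ 2)))
      (2 * Real.exp (1 / (4 * H ^ 2)) +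
        1 / (2 * Real.pi) * (∫ t, Real.exp (-(t ^ 2 / H ^ 2)) * gg t) -
        ∑' n : ℕ, (vonMangoldt n : ℝ) / Real.sqrt n * (2 * kk H 0 (Real.log n)))) :
    (∃ C : ℝ, 0 < C ∧ ∀ R : ℝ, 4 ≤ R → ∀ G : Finset ℝ, (∀ γ ∈ G, |γ| ≤ R) →
      ∑ γ ∈ G, (m γ : ℝ) ≤ C * (R * Real.log R)) ∧
    (∃ c : ℝ, 0 < c ∧ ∃ T0 : ℝ, ∀ T : ℝ, T0 ≤ T → ∃ G : Finset ℝ, (∀ γ ∈ G, 0 < γ ∧ γ ≤ T) ∧
      c * (T * Real.log T) ≤ ∑ γ ∈ G, (m γ : ℝ)) := by
  have hC0 : 0 ≤ C0 := le_trans (abs_nonneg _) (hg 0)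
  obtain ⟨CP, hCP, hP⟩ := prime_part
  set E : ℝ → ℝ := fun H => 2 * Real.exp (1 / (4 * H ^ 2)) +
    1 / (2 * Real.pi) * (∫ t, Real.exp (-(t ^ 2 / H ^ 2)) * gg t) -
        ∑' n : ℕ, (vonMangoldt n : ℝ) / Real.sqrt n * (2 * kk H 0 (Real.log n)) with hEd
  have hE' : ∀ H : ℝ, 0 < H → HasSum (fun γ : ℝ => (m γ : ℝ) * Real.exp (-(γ ^ 2 / H ^ 2)))
    (E H) := hE
  have hpi := Real.pi_pos
  have hsp : Real.sqrt Real.pi ≤ 2 := by
    rw [Real.sqrt_le_left (by norm_num)]
    linarith [Real.pi_lt_four]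
  have hs2 : Real.sqrt 2 ≤ 2 := by
    rw [Real.sqrt_le_left (by norm_num)]
    norm_num
  have hlog4 : (1 : ℝ) ≤ Real.log 4 := by
    rw [Real.le_log_iff_exp_le (by norm_num)]
    linarith [Real.exp_one_lt_d9]
  -- upper bound for E
  have hup : ∃ C1 : ℝ, 0 < C1 ∧ ∀ H : ℝ, 4 ≤ H → E H ≤ C1 * (H * Real.log H) := by
    refine ⟨12 + 2 * C0, by positivity, fun H hH => ?_⟩
    have hH0 : 0 < H := by linarith
    have hL : 1 ≤ Real.log H := hlog4.trans (Real.log_le_log (by norm_num) hH)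
    have h1 := (int_bd hgc hg (by linarith : (1 : ℝ) ≤ H)).2
    have h2 := (hP H hH).1
    have h3 : Real.exp (1 / (4 * H ^ 2)) ≤ 3 := by
      calc Real.exp (1 / (4 * H ^ 2)) ≤ Real.exp 1 := by
            apply Real.exp_le_exp.mpr
            rw [div_le_one (by positivity)]
            nlinarith
        _ ≤ 3 := by linarith [Real.exp_one_lt_d9]
    have h4 : (Real.log H + C0) * (Real.sqrt Real.pi * H) + Real.sqrt Real.pi * (Real.sqrt 2 * H) ≤
        (Real.log H + C0) * (2 * H) + 2 * (2 * H) := by gcongr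
    have h5 : 1 / (2 * Real.pi) * (∫ t, Real.exp (-(t ^ 2 / H ^ 2)) * gg t) ≤
        1 * ((Real.log H + C0) * (2 * H) + 2 * (2 * H)) := by
      have h6 : 1 / (2 * Real.pi) ≤ 1 := by
        rw [div_le_one (by positivity)]
        linarith [Real.pi_gt_three]
      have h7 := h1.trans h4
      have h8 : 0 ≤ (Real.log H + C0) * (2 * H) + 2 * (2 * H) := by positivity
      calc _ ≤ 1 / (2 * Real.pi) * ((Real.log H + C0) * (2 * H) + 2 * (2 * H)) := by gcongr
        _ ≤ _ := by gcongr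
    have h9 : H ≤ H * Real.log H := by nlinarith
    have h10 : E H ≤ 2 * 3 + 1 * ((Real.log H + C0) * (2 * H) + 2 * (2 * H)) := by
      simp only [hEd]
      linarith
    nlinarith [mul_le_mul_of_nonneg_left h9 hC0]
  -- lower bound for E
  have hlow : ∃ c0 : ℝ, 0 < c0 ∧ ∀ᶠ H : ℝ in atTop, c0 * (H * Real.log H) ≤ E H := by
    refine ⟨Real.exp (-1) / (8 * Real.pi), by positivity, ?_⟩
    set K : ℝ := (C0 * Real.sqrt Real.pi + Real.exp (-1) * Real.log 2 / 2) / (2 * Real.pi) + CP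
      with hK
    have ht : Tendsto (fun H : ℝ => Real.exp (-1) / (8 * Real.pi) * Real.log H) atTop atTop :=
      Real.tendsto_log_atTop.const_mul_atTop (by positivity)
    filter_upwards [ht.eventually_ge_atTop K, eventually_ge_atTop 4] with H hHK hH
    have hH0 : 0 < H := by linarith
    have h1 := int_low hgc hg (by linarith : (2 : ℝ) ≤ H)
    have h2 := (hP H hH).2
    rw [Real.log_div hH0.ne' (by norm_num)] at h1
    have h3 : 1 / (2 * Real.pi) * (H / 2 * (Real.exp (-1) * (Real.log H - Real.log 2)) -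
      C0 * (Real.sqrt Real.pi * H)) ≤
      1 / (2 * Real.pi) * (∫ t, Real.exp (-(t ^ 2 / H ^ 2)) * gg t) := by gcongr
    have h4 : 1 / (2 * Real.pi) * (H / 2 * (Real.exp (-1) * (Real.log H - Real.log 2)) -
      C0 * (Real.sqrt Real.pi * H)) = 2 * (H * (Real.exp (-1) / (8 * Real.pi) * Real.log H)) -
        H * ((C0 * Real.sqrt Real.pi + Real.exp (-1) * Real.log 2 / 2) / (2 * Real.pi)) := by
      field_simp
      ring
    have h5 := mul_le_mul_of_nonneg_left hHK hH0.le
    have h6 : 0 < Real.exp (1 / (4 * H ^ 2)) := Real.exp_pos _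
    have h7 : H * K = H * ((C0 * Real.sqrt Real.pi + Real.exp (-1) * Real.log 2 / 2) /
      (2 * Real.pi)) + CP * H := by rw [hK]; ring
    simp only [hEd]
    linarith
  obtain ⟨C1, hC1, hup⟩ := hup
  obtain ⟨c0, hc0, hlow⟩ := hlow
  refine ⟨⟨3 * C1, by positivity, fun R hR G hG => ?_⟩, ?_⟩
  · have hR0 : 0 < R := by linarith
    have h1 := hE' R hR0
    have h2 : ∑ γ ∈ G, (m γ : ℝ) * Real.exp (-(γ ^ 2 / R ^ 2)) ≤ E R :=
      sum_le_hasSum G (fun γ _ => by positivity) h1
    have h3 : ∑ γ ∈ G, (m γ : ℝ) ≤ 3 * ∑ γ ∈ G, (m γ : ℝ) * Real.exp (-(γ ^ 2 / R ^ 2)) := by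
      rw [Finset.mul_sum]
      refine Finset.sum_le_sum fun γ hγ => ?_
      have h4 : Real.exp (-1) ≤ Real.exp (-(γ ^ 2 / R ^ 2)) := by
        apply Real.exp_le_exp.mpr
        rw [neg_le_neg_iff, div_le_one (by positivity), ← sq_abs γ]
        have := hG γ hγ
        have := abs_nonneg γ
        gcongr
      have h5 : (1 : ℝ) ≤ 3 * Real.exp (-1) := by
        rw [Real.exp_neg, ← div_eq_mul_inv, le_div_iff₀ (Real.exp_pos _)]
        linarith [Real.exp_one_lt_d9]
      have h6 : (1 : ℝ) ≤ 3 * Real.exp (-(γ ^ 2 / R ^ 2)) := by linarith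
      have h7 : (0 : ℝ) ≤ m γ := by positivity
      nlinarith
    have := hup R hR
    nlinarith
  -- lower bound
  obtain ⟨A, hA1, hA⟩ : ∃ A : ℝ, 1 ≤ A ∧ Real.exp (-(A ^ 2 / 2)) * (4 * C1) ≤ c0 / 4 := by
    have ht : Tendsto (fun A : ℝ => Real.exp (-(A ^ 2 / 2)) * (4 * C1)) atTop (𝓝 (0 * (4 * C1))) := by
      refine Tendsto.mul_const _ ?_
      refine Real.tendsto_exp_atBot.comp ?_
      refine tendsto_neg_atTop_atBot.comp ?_
      exact (tendsto_pow_atTop (by norm_num)).atTop_div_const (by norm_num)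
    rw [zero_mul] at ht
    obtain ⟨A, h1, h2⟩ := ((ht.eventually_le_const (by positivity : (0:ℝ) < c0 / 4)).and
      (eventually_ge_atTop 1)).exists
    exact ⟨A, h2, h1⟩
  have hA0 : 0 < A := by linarith
  have hHl : ∀ᶠ H : ℝ in atTop, ∃ G : Finset ℝ, (∀ γ ∈ G, 0 < γ ∧ γ ≤ A * H) ∧
      c0 / 8 * (H * Real.log H) ≤ ∑ γ ∈ G, (m γ : ℝ) := by
    have htl : Tendsto (fun H : ℝ => c0 / 2 * (H * Real.log H)) atTop atTop :=
      (tendsto_id.atTop_mul_atTop₀ Real.tendsto_log_atTop).const_mul_atTop (by positivity)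
    filter_upwards [hlow, eventually_ge_atTop 4, htl.eventually_ge_atTop (1 + (m 0 : ℝ))]
      with H h1 hH hbig
    have hH0 : 0 < H := by linarith
    have hL : 1 ≤ Real.log H := hlog4.trans (Real.log_le_log (by norm_num) hH)
    have hHL : 0 < H * Real.log H := by positivity
    -- finite set carrying the sum
    obtain ⟨F, hF⟩ : ∃ F : Finset ℝ, E H - 1 < ∑ γ ∈ F, (m γ : ℝ) * Real.exp (-(γ ^ 2 / H ^ 2)) := by
      have := (hE' H hH0).eventually (lt_mem_nhds (by linarith : E H - 1 < E H))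
      exact this.exists
    -- tail
    have htail : ∑ γ ∈ F with ¬ |γ| ≤ A * H, (m γ : ℝ) * Real.exp (-(γ ^ 2 / H ^ 2)) ≤
        c0 / 4 * (H * Real.log H) := by
      have h2s : 0 < Real.sqrt 2 * H := by positivity
      have hsq1 : 1 ≤ Real.sqrt 2 := Real.one_le_sqrt.mpr (by norm_num)
      have h3 := hup (Real.sqrt 2 * H) (by nlinarith)
      have h4 : ∑ γ ∈ F with ¬ |γ| ≤ A * H, (m γ : ℝ) *
          Real.exp (-(γ ^ 2 / (Real.sqrt 2 * H) ^ 2)) ≤ E (Real.sqrt 2 * H) :=
        sum_le_hasSum _ (fun γ _ => by positivity) (hE' _ h2s)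
      have h5 : ∑ γ ∈ F with ¬ |γ| ≤ A * H, (m γ : ℝ) * Real.exp (-(γ ^ 2 / H ^ 2)) ≤
          Real.exp (-(A ^ 2 / 2)) * ∑ γ ∈ F with ¬ |γ| ≤ A * H, (m γ : ℝ) *
          Real.exp (-(γ ^ 2 / (Real.sqrt 2 * H) ^ 2)) := by
        rw [Finset.mul_sum]
        refine Finset.sum_le_sum fun γ hγ => ?_
        rw [Finset.mem_filter, not_le] at hγ
        have h6 : Real.exp (-(γ ^ 2 / H ^ 2)) ≤ Real.exp (-(A ^ 2 / 2)) *
            Real.exp (-(γ ^ 2 / (Real.sqrt 2 * H) ^ 2)) := by
          rw [← Real.exp_add]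
          apply Real.exp_le_exp.mpr
          rw [mul_pow, Real.sq_sqrt (by norm_num)]
          have h7 : A ^ 2 ≤ γ ^ 2 / H ^ 2 := by
            rw [le_div_iff₀ (by positivity), ← mul_pow, ← sq_abs γ]
            have := hγ.2.le
            gcongr
          have h8 : γ ^ 2 / (2 * H ^ 2) = γ ^ 2 / H ^ 2 / 2 := by
            field_simp
          rw [h8]
          linarith
        have h9 : (0 : ℝ) ≤ m γ := by positivity
        nlinarith
      have h10 : Real.sqrt 2 * H * Real.log (Real.sqrt 2 * H) ≤ 4 * (H * Real.log H) := by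
        rw [Real.log_mul (by positivity) hH0.ne']
        have h11 : Real.log (Real.sqrt 2) ≤ Real.log H := by
          apply Real.log_le_log (by positivity)
          linarith
        have h12 : 0 ≤ Real.log (Real.sqrt 2) := Real.log_nonneg hsq1
        calc Real.sqrt 2 * H * (Real.log (Real.sqrt 2) + Real.log H) ≤
            2 * H * (Real.log H + Real.log H) := by gcongr
          _ = 4 * (H * Real.log H) := by ring
      calc _ ≤ Real.exp (-(A ^ 2 / 2)) * E (Real.sqrt 2 * H) := by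
            refine h5.trans ?_
            gcongr
        _ ≤ Real.exp (-(A ^ 2 / 2)) * (C1 * (4 * (H * Real.log H))) := by
            refine mul_le_mul_of_nonneg_left (h3.trans ?_) (Real.exp_pos _).le
            gcongr
        _ = (Real.exp (-(A ^ 2 / 2)) * (4 * C1)) * (H * Real.log H) := by ring
        _ ≤ _ := by gcongr
    have hsplit := Finset.sum_filter_add_sum_filter_not F (fun γ => |γ| ≤ A * H)
      (fun γ => (m γ : ℝ) * Real.exp (-(γ ^ 2 / H ^ 2)))
    have hmain : c0 / 4 * (H * Real.log H) - 1 ≤ ∑ γ ∈ F with |γ| ≤ A * H, (m γ : ℝ) - 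
        c0 / 2 * (H * Real.log H) := by
      have h13 : ∑ γ ∈ F with |γ| ≤ A * H, (m γ : ℝ) * Real.exp (-(γ ^ 2 / H ^ 2)) ≤
          ∑ γ ∈ F with |γ| ≤ A * H, (m γ : ℝ) := by
        refine Finset.sum_le_sum fun γ _ => ?_
        have : Real.exp (-(γ ^ 2 / H ^ 2)) ≤ 1 := by
          rw [Real.exp_le_one_iff]
          have : 0 ≤ γ ^ 2 / H ^ 2 := by positivity
          linarith
        have h9 : (0 : ℝ) ≤ m γ := by positivity
        nlinarith
      linarith
    set F' := F.filter (fun γ => |γ| ≤ A * H) with hF'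
    refine ⟨(F'.image (fun γ => |γ|)).filter (fun γ => 0 < γ), ?_, ?_⟩
    · intro γ hγ
      rw [Finset.mem_filter, Finset.mem_image] at hγ
      obtain ⟨⟨δ, hδ, rfl⟩, h0⟩ := hγ
      rw [hF', Finset.mem_filter] at hδ
      exact ⟨h0, hδ.2⟩
    · set G := (F'.image (fun γ => |γ|)).filter (fun γ => 0 < γ) with hG
      -- positive part, negative part
      have hpos : ∑ γ ∈ F' with 0 < γ, (m γ : ℝ) ≤ ∑ γ ∈ G, (m γ : ℝ) := by
        refine Finset.sum_le_sum_of_subset_of_nonneg ?_ (fun _ _ _ => by positivity)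
        intro γ hγ
        rw [Finset.mem_filter] at hγ
        rw [hG, Finset.mem_filter, Finset.mem_image]
        exact ⟨⟨γ, hγ.1, abs_of_pos hγ.2⟩, hγ.2⟩
      have hneg : ∑ γ ∈ F' with γ < 0, (m γ : ℝ) ≤ ∑ γ ∈ G, (m γ : ℝ) := by
        have h14 : ∑ γ ∈ F' with γ < 0, (m γ : ℝ) =
            ∑ γ ∈ (F'.filter (fun γ => γ < 0)).image (fun γ => -γ), (m γ : ℝ) := by
          rw [Finset.sum_image (fun a _ b _ h => neg_injective h)]
          exact Finset.sum_congr rfl fun γ _ => by rw [hm]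
        rw [h14]
        refine Finset.sum_le_sum_of_subset_of_nonneg ?_ (fun _ _ _ => by positivity)
        intro γ hγ
        rw [Finset.mem_image] at hγ
        obtain ⟨δ, hδ, rfl⟩ := hγ
        rw [Finset.mem_filter] at hδ
        rw [hG, Finset.mem_filter, Finset.mem_image]
        exact ⟨⟨δ, hδ.1, abs_of_neg hδ.2⟩, by linarith [hδ.2]⟩
      have hzero : ∑ γ ∈ F' with γ = 0, (m γ : ℝ) ≤ m 0 := by
        rw [Finset.sum_filter, Finset.sum_ite_eq' F' 0 (fun γ => (m γ : ℝ))]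
        split_ifs
        · exact le_rfl
        · positivity
      have hall : ∑ γ ∈ F', (m γ : ℝ) ≤ ∑ γ ∈ F' with 0 < γ, (m γ : ℝ) +
          ∑ γ ∈ F' with γ < 0, (m γ : ℝ) + ∑ γ ∈ F' with γ = 0, (m γ : ℝ) := by
        rw [Finset.sum_filter (fun γ : ℝ => 0 < γ), Finset.sum_filter (fun γ : ℝ => γ < 0),
          Finset.sum_filter (fun γ : ℝ => γ = 0), ← Finset.sum_add_distrib,
          ← Finset.sum_add_distrib]
        refine Finset.sum_le_sum fun γ _ => ?_
        have h9 : (0 : ℝ) ≤ m γ := by positivity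
        rcases lt_trichotomy γ 0 with h | h | h
        · simp [h, h.not_gt, h.ne]
        · simp [h]
        · simp [h, h.not_gt, h.ne']
      linarith
  -- change of variables T = A H
  rw [eventually_atTop] at hHl
  obtain ⟨H0, hH0⟩ := hHl
  refine ⟨c0 / (16 * A), by positivity, max (A * H0) (A ^ 2), fun T hT => ?_⟩
  have hT1 : A * H0 ≤ T := (le_max_left _ _).trans hT
  have hT2 : A ^ 2 ≤ T := (le_max_right _ _).trans hT
  obtain ⟨G, hG1, hG2⟩ := hH0 (T / A) (by rw [le_div_iff₀ hA0]; linarith)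
  rw [mul_div_cancel₀ _ hA0.ne'] at hG1
  refine ⟨G, hG1, le_trans ?_ hG2⟩
  have hT0 : 0 < T := lt_of_lt_of_le (by positivity) hT2
  have h15 : Real.log T ≤ 2 * Real.log (T / A) := by
    rw [Real.log_div hT0.ne' hA0.ne']
    have := Real.log_le_log (by positivity) hT2
    rw [Real.log_pow] at this
    push_cast at this
    linarith
  calc c0 / (16 * A) * (T * Real.log T) ≤ c0 / (16 * A) * (T * (2 * Real.log (T / A))) := by
        gcongr
    _ = _ := by
        field_simp
        ring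

end Pool.Agent.helper37.LRM
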